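import Pool.Agent.H87.EBK.Stmts2

/-!
Row STL of the board `ebs` (MP_93721d_nt): lower bound for the size of a step.
-/

namespace Pool.EBK

theorem stl : STL := by
  intro a b c u w c' u' w' C ha hab ht ht' hcC hc'
  obtain ⟨hc0, hu0, hw0, hu, hw⟩ := ht
  obtain ⟨hc0', hu0', hw0', hu', hw'⟩ := ht'
  have hb : 0 < b := lt_of_lt_of_le ha hab
  have hC0 : 0 < C := lt_of_lt_of_le hc0 hcC
  have h1 : u' ≤ w' := by
    refine le_of_sq_le_sq ?_ hw0'.le
    rw [hu', hw']
    nlinarith
  have h2 : b ≤ w := by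
    refine le_of_sq_le_sq ?_ hw0.le
    rw [hw]
    nlinarith [sq_nonneg c]
  have h3 : u ≤ a + C := by
    refine le_of_sq_le_sq ?_ (by positivity)
    rw [hu]
    nlinarith [mul_pos ha hC0]
  have h4 : w ≤ b + C := by
    refine le_of_sq_le_sq ?_ (by positivity)
    rw [hw]
    nlinarith [mul_pos hb hC0]
  have hM : 0 < MU c u w c' u' w' := by
    unfold MU
    positivity
  have hMD : MU c u w c' u' w' ≤ c' * w' * (a + C) + C * (b + C) * u' := by
    unfold MU
    have e1 : c' * w' * u ≤ c' * w' * (a + C) := mul_le_mul_of_nonneg_left h3 (by positivity)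
    have e2 : c * w ≤ C * (b + C) := mul_le_mul hcC h4 hw0.le hC0.le
    have e3 : c * w * u' ≤ C * (b + C) * u' := mul_le_mul_of_nonneg_right e2 hu0'.le
    linarith
  have hnum : a ^ 2 * b * w' ≤ c * MU c u w c' u' w' - NU a c u w c' u' w' := by
    unfold MU NU
    have e1 : a ^ 2 * b * w' ≤ a ^ 2 * w * w' :=
      mul_le_mul_of_nonneg_right (mul_le_mul_of_nonneg_left h2 (by positivity)) hw0'.le
    have e2 : 0 ≤ c * c' * u * (w' - u') := mul_nonneg (by positivity) (by linarith)
    have e3 : 0 ≤ c ^ 2 * w * u' := by positivity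
    nlinarith
  have hfin : c - NU a c u w c' u' w' / MU c u w c' u' w' =
      (c * MU c u w c' u' w' - NU a c u w c' u' w') / MU c u w c' u' w' := by
    rw [sub_div, mul_div_assoc, div_self hM.ne', mul_one]
  rw [hfin]
  exact div_le_div₀ (le_trans (by positivity) hnum) hnum hM hMD

end Pool.EBK
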